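import Mathlib

/-!
Convexity of the characteristic function with respect to the logarithm of the radius.
-/

set_option autoImplicit false

namespace Pool.Agent.K9h33.SMT

open Filter Metric Set Topology ValueDistribution MeromorphicOn Function
open Function.locallyFinsuppWithin

/-- terms of the counting function -/
theorem term_conv {r R t : ℝ} (hr : 1 ≤ r) (hR : 1 < R) (hrR : r ≤ R) (ht : 0 < t) (htR : t ≤ R) :
    Real.log R * (if t ≤ r then Real.log (r * t⁻¹) else 0) ≤
      Real.log R * (if t ≤ 1 then Real.log (1 * t⁻¹) else 0) +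
        Real.log r * Real.log (R * t⁻¹) := by
  have hr0 : 0 < r := by linarith
  have hR0 : 0 < R := by linarith
  have h1 : 0 ≤ Real.log r := Real.log_nonneg hr
  have h2 : 0 < Real.log R := Real.log_pos hR
  have h3 : Real.log (r * t⁻¹) = Real.log r - Real.log t := by
    rw [Real.log_mul hr0.ne' (inv_ne_zero ht.ne'), Real.log_inv]
    ring
  have h4 : Real.log (R * t⁻¹) = Real.log R - Real.log t := by
    rw [Real.log_mul hR0.ne' (inv_ne_zero ht.ne'), Real.log_inv]
    ring
  have h5 : Real.log (1 * t⁻¹) = - Real.log t := by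
    rw [one_mul, Real.log_inv]
  have h6 : Real.log r ≤ Real.log R := Real.log_le_log hr0 hrR
  have h7 : Real.log t ≤ Real.log R := Real.log_le_log ht htR
  rw [h3, h4, h5]
  split_ifs with c1 c2 c2
  · have h8 : Real.log t ≤ 0 := Real.log_nonpos ht.le c2
    nlinarith
  · push Not at c2
    have h8 : 0 ≤ Real.log t := Real.log_nonneg c2.le
    nlinarith
  · exfalso
    linarith
  · have h8 : 0 ≤ Real.log r * (Real.log R - Real.log t) := mul_nonneg h1 (by linarith)
    linarith

/-- the counting function as a sum -/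
theorem lc_sum (D : locallyFinsupp ℂ ℤ) {r R : ℝ} (hr : 0 < r) (hrR : r ≤ R) (s : Finset ℂ)
    (hs : ∀ z, z ∈ s ↔ ‖z‖ ≤ R ∧ D z ≠ 0 ∧ z ≠ 0) :
    logCounting D r = ∑ z ∈ s, D z * (if ‖z‖ ≤ r then Real.log (r * ‖z‖⁻¹) else 0) +
      D 0 * Real.log r := by
  have h1 : logCounting D r = ∑ᶠ z, D.toClosedBall r z * Real.log (r * ‖z‖⁻¹) +
      D 0 * Real.log r := rfl
  rw [h1]
  congr 1
  rw [finsum_eq_sum_of_support_subset (s := s)]
  · refine Finset.sum_congr rfl fun z hz => ?_
    by_cases hz2 : ‖z‖ ≤ r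
    · rw [if_pos hz2, toClosedBall_eval_within _ (by simpa [abs_of_pos hr] using hz2)]
    · rw [if_neg hz2]
      rw [apply_eq_zero_of_notMem ((toClosedBall r) _) (by simpa [abs_of_pos hr] using hz2)]
      simp
  · intro z hz
    rw [Function.mem_support] at hz
    have h2 : z ∈ closedBall (0 : ℂ) |r| := by
      by_contra hcon
      apply hz
      rw [apply_eq_zero_of_notMem ((toClosedBall r) _) hcon]
      simp
    rw [toClosedBall_eval_within _ h2] at hz
    rw [Finset.mem_coe, hs]
    have h3 : ‖z‖ ≤ r := by simpa [abs_of_pos hr] using h2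
    refine ⟨h3.trans hrR, fun h4 => hz ?_, fun h4 => hz ?_⟩
    · rw [h4]
      simp
    · rw [h4]
      simp

theorem lc_conv {D : locallyFinsupp ℂ ℤ} (hD : 0 ≤ D) {r R : ℝ} (hr : 1 ≤ r) (hR : 1 < R)
    (hrR : r ≤ R) :
    logCounting D r ≤ logCounting D 1 + Real.log r / Real.log R * logCounting D R := by
  classical
  have hfin : {z : ℂ | ‖z‖ ≤ R ∧ D z ≠ 0 ∧ z ≠ 0}.Finite := by
    have h1 : (D.toClosedBall R).support.Finite :=
      (toClosedBall R D).finiteSupport (isCompact_closedBall 0 |R|)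
    refine h1.subset fun z hz => ?_
    have h2 : z ∈ closedBall (0 : ℂ) |R| := by
      simpa [abs_of_pos (show (0 : ℝ) < R by linarith)] using hz.1
    rw [Function.mem_support, toClosedBall_eval_within _ h2]
    exact hz.2.1
  have hs : ∀ z, z ∈ hfin.toFinset ↔ ‖z‖ ≤ R ∧ D z ≠ 0 ∧ z ≠ 0 := fun z => by
    rw [Set.Finite.mem_toFinset]
    rfl
  rw [lc_sum D (show 0 < r by linarith) hrR _ hs, lc_sum D one_pos hR.le _ hs,
    lc_sum D (show 0 < R by linarith) le_rfl _ hs]
  have hlR : 0 < Real.log R := Real.log_pos hR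
  rw [div_mul_eq_mul_div, ← mul_le_mul_iff_right₀ hlR, mul_add (Real.log R),
    mul_add (Real.log R) _ (_ / _), mul_div_cancel₀ _ hlR.ne', Real.log_one, mul_zero, add_zero,
    mul_add (Real.log r), Finset.mul_sum, Finset.mul_sum, Finset.mul_sum]
  have h2 : ∑ z ∈ hfin.toFinset, Real.log R * (D z * (if ‖z‖ ≤ r then Real.log (r * ‖z‖⁻¹) else 0)) ≤
      ∑ z ∈ hfin.toFinset, Real.log R * (D z * (if ‖z‖ ≤ 1 then Real.log (1 * ‖z‖⁻¹) else 0)) +
      ∑ z ∈ hfin.toFinset, Real.log r * (D z * (if ‖z‖ ≤ R then Real.log (R * ‖z‖⁻¹) else 0)) := by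
    rw [← Finset.sum_add_distrib]
    refine Finset.sum_le_sum fun z hz => ?_
    obtain ⟨h3, -, h5⟩ := (hs z).1 hz
    rw [if_pos h3]
    have h6 := term_conv hr hR hrR (norm_pos_iff.2 h5) h3
    have h7 : (0 : ℝ) ≤ D z := Int.cast_nonneg (hD z)
    have h8 := mul_le_mul_of_nonneg_left h6 h7
    calc _ = (D z : ℝ) * (Real.log R * (if ‖z‖ ≤ r then Real.log (r * ‖z‖⁻¹) else 0)) := by ring
      _ ≤ _ := h8
      _ = _ := by ring
  have h3 : Real.log R * (D 0 * Real.log r) = Real.log r * (D 0 * Real.log R) := by ring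
  rw [h3]
  linarith

theorem vlc_conv {f : ℂ → ℂ} (a : WithTop ℂ) {r R : ℝ} (hr : 1 ≤ r) (hR : 1 < R)
    (hrR : r ≤ R) : ValueDistribution.logCounting f a r ≤ ValueDistribution.logCounting f a 1 +
      Real.log r / Real.log R * ValueDistribution.logCounting f a R := by
  induction a using WithTop.recTopCoe with
  | top =>
    rw [ValueDistribution.logCounting_top]
    exact lc_conv (negPart_nonneg _) hr hR hrR
  | coe a =>
    rw [ValueDistribution.logCounting_coe]
    exact lc_conv (posPart_nonneg _) hr hR hrR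

/-- **Convexity of the characteristic function.** -/
theorem char_conv {f : ℂ → ℂ} (hf : Meromorphic f) : ∃ c : ℝ, ∀ r R : ℝ, 1 ≤ r → 1 < R → r ≤ R →
    characteristic f ⊤ r ≤ characteristic f ⊤ 1 +
      Real.log r / Real.log R * (characteristic f ⊤ R + c) := by
  obtain ⟨c, hc⟩ := characteristic_top_eq_circleAverage_add_const hf
  refine ⟨-c, fun r R hr hR hrR => ?_⟩
  have hi : ∀ ρ, CircleIntegrable (ValueDistribution.logCounting f · ρ) 0 1 := fun ρ =>
    circleIntegrable_logCounting hf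
  rw [hc r (by linarith), hc 1 one_ne_zero, hc R (by linarith)]
  have h2 : CircleIntegrable (fun a : ℂ => (Real.log r / Real.log R) •
      ValueDistribution.logCounting f a R) 0 1 := (hi R).const_smul
  have h1 : Real.circleAverage (fun a : ℂ => ValueDistribution.logCounting f a r) 0 1 ≤
      Real.circleAverage (fun a : ℂ => ValueDistribution.logCounting f a 1 +
        (Real.log r / Real.log R) • ValueDistribution.logCounting f a R) 0 1 := by
    refine Real.circleAverage_mono (hi r) ((hi 1).add h2) fun a _ => ?_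
    exact vlc_conv _ hr hR hrR
  rw [Real.circleAverage_fun_add (hi 1) h2, Real.circleAverage_fun_smul, smul_eq_mul] at h1
  linarith

/-- **Logarithmic growth.** -/
theorem char_all {f : ℂ → ℂ} (hf : Meromorphic f) {K C : ℝ}
    (h : ∃ᶠ R : ℝ in atTop, characteristic f ⊤ R ≤ K * Real.log R + C) :
    ∃ C' : ℝ, ∀ r, 1 ≤ r → characteristic f ⊤ r ≤ C' * (1 + Real.log r) := by
  obtain ⟨c, hc⟩ := char_conv hf
  refine ⟨|characteristic f ⊤ 1| + |K| + 1, fun r hr => ?_⟩
  have hlr : 0 ≤ Real.log r := Real.log_nonneg hr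
  have h1 : ∀ᶠ R : ℝ in atTop, |C| + |c| ≤ Real.log R ∧ 1 < R ∧ r ≤ R := by
    filter_upwards [Real.tendsto_log_atTop.eventually_ge_atTop (|C| + |c|), eventually_gt_atTop 1,
      eventually_ge_atTop r] with R h1 h2 h3
    exact ⟨h1, h2, h3⟩
  obtain ⟨R, h2, h3, h4, h5⟩ := (h.and_eventually h1).exists
  have h6 := hc r R hr h4 h5
  have hlR : 0 < Real.log R := Real.log_pos h4
  have h7 : characteristic f ⊤ R + c ≤ (|K| + 1) * Real.log R := by
    have := le_abs_self K
    have := le_abs_self C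
    have := le_abs_self c
    nlinarith
  have h8 : Real.log r / Real.log R * (characteristic f ⊤ R + c) ≤ (|K| + 1) * Real.log r := by
    rw [div_mul_eq_mul_div, div_le_iff₀ hlR]
    nlinarith
  have h9 := le_abs_self (characteristic f ⊤ 1)
  have h10 : 0 ≤ |characteristic f ⊤ 1| * Real.log r := mul_nonneg (abs_nonneg _) hlr
  have h11 := abs_nonneg K
  nlinarith

end Pool.Agent.K9h33.SMT
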