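import Mathlib
import Pool.Agent.K9h33.SMT.Eng

/-!
Uniform inequalities for entire curves in general complete intersections and their complements.
-/

set_option autoImplicit false

namespace Pool.Agent.K9h33.SMT

open MeasureTheory Set Filter Topology MvPolynomial
open Pool.Agent.N131.SU
open Pool.Agent.N131.SR (Wr Wr_diff Tf diff_ne form_diff img_diff Nb Nb_nonneg)
open Pool.Agent.V1153.UG
open Pool.Agent.V1153.GH
open Pool.Agent.TH182.VD (CI)

variable {N M n e q : ℕ}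

/-- the coefficients of forms -/
noncomputable def cf {d : Fin q → ℕ} (F : Fin q → MvPolynomial (Fin (N + 1)) ℂ) (x : CI N d) : ℂ :=
  coeff x.2.1 (F x.1)

/-- generic forms: no families of punctured lines -/
theorem no_fam {d : Fin q → ℕ} {Z : Finset (Fin q)} (hZ : 2 * N + 1 ≤ ∑ i, d i + Z.card)
    {F : Fin q → MvPolynomial (Fin (N + 1)) ℂ} (hF : ∀ i, (F i).IsHomogeneous (d i))
    (hind : AlgebraicIndependent (⊥ : Subfield ℂ) (cf (d := d) F))
    {M' : Type} [Field M'] [Algebra ℂ M'] {P : Fin (N + 1) → Polynomial M'}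
    (h1 : ∀ i ∈ Z, aeval P (F i) = 0)
    (h2 : ∃ (c : M') (k : ℕ), c ≠ 0 ∧ aeval P (∏ i ∈ Finset.univ \ Z, F i) =
      Polynomial.C c * Polynomial.X ^ k)
    (h3 : ∃ j k, Polynomial.derivative (P j) * P k ≠ P j * Polynomial.derivative (P k)) :
    False := by
  classical
  have key : (aeval P (1 : MvPolynomial (Fin (N + 1)) ℂ) : Polynomial M') = 0 := by
    refine Pool.Agent.Y356.IL.t_RCQ N (Ideal.span {G | ∃ i ∈ Z, G = F i})
      (∏ i ∈ Finset.univ \ Z, F i) 1 (fun p e1 e2 e3 => ?_) M' P (fun G hG _ => ?_) h2 h3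
    · exfalso
      have hlim : GmBdd (Ideal.span {G | ∃ i ∈ Z, G = F i}) (∏ i ∈ Finset.univ \ Z, F i)
          (∑ j, (p j).natDegree) p := by
        refine ⟨fun l => Finset.single_le_sum (f := fun j => (p j).natDegree)
          (fun _ _ => Nat.zero_le _) (Finset.mem_univ l), e1, e2, ?_⟩
        obtain ⟨j, k, hjk⟩ := e3
        exact nc_of_wr ⟨j, k, hjk⟩
      have hQh : (∏ i ∈ Finset.univ \ Z, F i).IsHomogeneous (∑ i ∈ Finset.univ \ Z, d i) :=
        IsHomogeneous.prod _ _ _ fun i _ => hF i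
      obtain ⟨-, P', -, -, hpr⟩ := hlim.prim hQh
      refine no_gm ⊥ d F hF hind Z hZ P' ⟨fun t _ => hpr.ne t, fun t ht => ⟨fun i => ?_,
        hpr.off t ht⟩, ?_⟩
      · exact hpr.mem t _ (Ideal.subset_span ⟨i.1, i.2, rfl⟩) ⟨_, hF i.1⟩
      · obtain ⟨s, t, j, k, hs, ht, hst⟩ := hpr.nc
        exact ⟨s, t, hs, ht, j, k, hst⟩
    · have h4 : Ideal.span {G | ∃ i ∈ Z, G = F i} ≤ RingHom.ker
          (aeval P : MvPolynomial (Fin (N + 1)) ℂ →ₐ[ℂ] Polynomial M').toRingHom := by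
        rw [Ideal.span_le]
        rintro _ ⟨l, hl, rfl⟩
        exact h1 l hl
      exact h4 hG
  rw [map_one] at key
  exact one_ne_zero key

/-- the nonvanishing of a product -/
theorem prod_ne {c : Crv M N n e} {s : Finset (Fin q)} {F : Fin q → MvPolynomial (Fin (N + 1)) ℂ}
    (h : ∀ i ∈ s, ∃ z, eval (fun j => c.f j z) (F i) ≠ 0) :
    ∃ z, eval (fun j => c.f j z) (∏ i ∈ s, F i) ≠ 0 := by
  classical
  have hd : ∀ i, Differentiable ℂ fun z => eval (fun j => c.f j z) (F i) := fun i =>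
    form_diff (img_diff (P := c.P) c.D.hG) (F i)
  have h1 : ∀ᶠ z in codiscrete ℂ, ∀ i ∈ s, eval (fun j => c.f j z) (F i) ≠ 0 := by
    rw [eventually_all_finset]
    intro i hi
    exact diff_ne (hd i) (h i hi)
  obtain ⟨z, hz⟩ := h1.exists
  refine ⟨z, ?_⟩
  rw [map_prod]
  exact Finset.prod_ne_zero_iff.2 hz

/-- **Uniform bounds for general hypersurfaces**, for a fixed dimension of the span. -/
theorem fam_ub (d : Fin q → ℕ) (Z : Finset (Fin q)) (hZ : 2 * N + 1 ≤ ∑ i, d i + Z.card)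
    (M n e : ℕ) : ∃ Φ : MvPolynomial (CI N d) ℂ, Φ ≠ 0 ∧ ∃ C : ℝ,
      ∀ F : Fin q → MvPolynomial (Fin (N + 1)) ℂ, (∀ i, (F i).IsHomogeneous (d i)) →
        eval (cf F) Φ ≠ 0 → ∀ c : Crv M N n e, (∀ i ∈ Z, ∀ z, eval (fun j => c.f j z) (F i) = 0) →
          (∀ i ∉ Z, ∃ z, eval (fun j => c.f j z) (F i) ≠ 0) →
            ∃ E : Set ℝ, volume E < ⊤ ∧ ∀ r, 1 ≤ r → r ∉ E → Tf c.f r ≤
              C * c.X (fun z => eval (fun j => c.f j z) (∏ i ∈ Finset.univ \ Z, F i)) r := by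
  classical
  by_contra hcon
  push Not at hcon
  -- an enumeration of the polynomials with coefficients in the prime field
  have hfin : ∀ i, Finite {m : Fin (N + 1) →₀ ℕ // m.degree = d i} := by
    intro i
    have h1 : {m : Fin (N + 1) →₀ ℕ | m.degree = d i}.Finite := by
      refine (Finsupp.finite_of_degree_le (d i)).subset ?_
      intro m hm
      exact le_of_eq hm
    exact h1
  have hfin' : Finite (CI N d) := inferInstance
  have hcb : Countable (⊥ : Subfield ℂ) := countable_bot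
  have hc : Countable (MvPolynomial (CI N d) (⊥ : Subfield ℂ)) := by
    have := Finite.to_countable (α := CI N d)
    rw [← Cardinal.mk_le_aleph0_iff]
    refine MvPolynomial.cardinalMk_le_max.trans ?_
    rw [max_le_iff, max_le_iff]
    exact ⟨⟨Cardinal.mk_le_aleph0, Cardinal.mk_le_aleph0⟩, le_rfl⟩
  let T : Type := {Φ : MvPolynomial (CI N d) (⊥ : Subfield ℂ) // Φ ≠ 0}
  have : Nonempty T := ⟨⟨1, one_ne_zero⟩⟩
  obtain ⟨en, hen⟩ := exists_surjective_nat T
  let Ψ : ℕ → MvPolynomial (CI N d) (⊥ : Subfield ℂ) := fun i =>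
    ∏ j ∈ Finset.range (i + 1), (en j).1
  have hΨ : ∀ i, map (algebraMap (⊥ : Subfield ℂ) ℂ) (Ψ i) ≠ 0 := by
    intro i h0
    have h1 : Ψ i = 0 := map_injective _ (algebraMap (⊥ : Subfield ℂ) ℂ).injective
      (h0.trans (map_zero _).symm)
    exact (Finset.prod_ne_zero_iff.2 fun j _ => (en j).2) h1
  -- the sequence
  let ι : Type := {F : Fin q → MvPolynomial (Fin (N + 1)) ℂ // ∀ i, (F i).IsHomogeneous (d i)} ×
    Crv M N n e
  let Qf : ι → MvPolynomial (Fin (N + 1)) ℂ := fun i => ∏ l ∈ Finset.univ \ Z, i.1.1 l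
  have hQf : ∀ i, (Qf i).IsHomogeneous (∑ l ∈ Finset.univ \ Z, d l) := fun i =>
    IsHomogeneous.prod _ _ _ fun l _ => i.1.2 l
  let Zk : ℕ → ι → Prop := fun k i =>
    eval (cf i.1.1) (map (algebraMap (⊥ : Subfield ℂ) ℂ) (Ψ k)) ≠ 0 ∧
      (∀ l ∈ Z, ∀ z, eval (fun j => i.2.f j z) (i.1.1 l) = 0) ∧
        ∀ l ∉ Z, ∃ z, eval (fun j => i.2.f j z) (i.1.1 l) ≠ 0
  obtain ⟨x, hx, hσ⟩ := fam_or (cr := fun i : ι => i.2) (Qf := Qf) hQf (Z := Zk)
    (fun k i hi => prod_ne fun l hl => hi.2.2 l (Finset.mem_sdiff.1 hl).2) (fun k => by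
      rintro ⟨C, hC⟩
      obtain ⟨F, h1, h2, c, h3, h4, h5⟩ := hcon _ (hΨ k) C
      obtain ⟨E, hE, hb⟩ := hC (⟨F, h1⟩, c) ⟨h2, h3, h4⟩
      obtain ⟨r, hr, hrE, hlt⟩ := h5 E hE
      exact absurd (hb r hr hrE) (not_le.2 hlt))
  let F : ℕ → Fin q → MvPolynomial (Fin (N + 1)) ℂ := fun k => (x k).1.1
  have hF : ∀ k i, (F k i).IsHomogeneous (d i) := fun k => (x k).1.2
  have hFj : ∀ i j, j ≤ i → aeval (fun x : CI N d => coeff x.2.1 (F i x.1)) (en j).1 ≠ 0 := by
    intro i j hij h0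
    apply (hx i).1
    rw [eval_map, ← aeval_def]
    simp only [Ψ]
    rw [map_prod]
    exact Finset.prod_eq_zero (Finset.mem_range.2 (by omega)) h0
  -- the limit
  obtain ⟨σ, -⟩ := exists_iso (S := ∅) Set.countable_empty
  let FL : Fin q → MvPolynomial (Fin (N + 1)) ℂ := fun l => map (Th σ) (sqp (d l) fun i => F i l)
  have hFLh : ∀ l, (FL l).IsHomogeneous (d l) := fun l => (sqp_hom _ _).map (Th σ)
  have hFLc : ∀ l α, coeff α (FL l) = Th σ fun i => coeff α (F i l) := by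
    intro l α
    simp only [FL]
    rw [coeff_map, coeff_sqp fun i => hF i l]
  have hind : AlgebraicIndependent (⊥ : Subfield ℂ) (cf (d := d) FL) := by
    rw [algebraicIndependent_iff]
    intro Φ hΦ
    by_contra h0
    obtain ⟨j, hj⟩ := hen ⟨Φ, h0⟩
    have h1 := theta_ne (Th_zero σ) (ι := Unit)
      (fun _ i => aeval (fun x : CI N d => coeff x.2.1 (F i x.1)) Φ) j (fun i hi => ⟨(), by
        have := hFj i j hi
        rwa [hj] at this⟩)
    obtain ⟨-, h1⟩ := h1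
    apply h1
    rw [← hΦ]
    let ψ : (⊥ : Subfield ℂ) →+* (ℕ → ℂ) := algebraMap _ _
    have h2 : (fun i => aeval (fun x : CI N d => coeff x.2.1 (F i x.1)) Φ) =
        eval₂ ψ (fun (x : CI N d) i => coeff x.2.1 (F i x.1)) Φ := by
      funext i
      have h3 := eval₂_comp_left (Pi.evalRingHom (fun _ : ℕ => ℂ) i) ψ
        (fun (x : CI N d) i => coeff x.2.1 (F i x.1)) Φ
      exact h3.symm
    rw [h2, eval₂_comp_left, aeval_def]
    congr 1
    · ext c
      exact theta_fix (Th σ) c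
    · funext x
      exact (hFLc _ _).symm
  have hsqF : ∀ l, ∀ᶠ k in (U : Filter ℕ), sq σ (FL l) k = F k l := by
    intro l
    filter_upwards [sq_Th σ (sqp (d l) fun i => F i l)] with k hk
    rw [← sqp_ev (fun i => hF i l) k]
    exact hk
  have hsqQ : ∀ᶠ k in (U : Filter ℕ), sq σ (∏ l ∈ Finset.univ \ Z, FL l) k = Qf (x k) := by
    filter_upwards [sq_Th σ (∏ l ∈ Finset.univ \ Z, sqp (d l) fun i => F i l)] with k hk
    rw [map_prod, map_prod] at hk
    rw [hk]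
    exact Finset.prod_congr rfl fun l _ => sqp_ev (fun i => hF i l) k
  have hQh : (∏ i ∈ Finset.univ \ Z, FL i).IsHomogeneous (∑ i ∈ Finset.univ \ Z, d i) :=
    IsHomogeneous.prod _ _ _ fun i _ => hFLh i
  obtain ⟨y, hy, M', i1, i2, P, h2, h3, h4⟩ := hσ σ _ hQh hsqQ
  refine no_fam hZ hFLh hind (P := P) (fun i hi => ?_) h3 h4
  rw [h2 _ ⟨_, hFLh i⟩, hy _ ⟨_, hFLh i⟩]
  unfold VanS
  rw [ev_cod]
  filter_upwards [hsqF i] with k hk
  refine Eventually.of_forall fun z => ?_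
  simp only [hk]
  exact (hx k).2.1 i hi z

/-- **Uniform bounds for general hypersurfaces.** -/
theorem fam_bd (d : Fin q → ℕ) (Z : Finset (Fin q)) (hZ : 2 * N + 1 ≤ ∑ i, d i + Z.card)
    (M e : ℕ) : ∃ Φ : MvPolynomial (CI N d) ℂ, Φ ≠ 0 ∧ ∃ C : ℝ,
      ∀ F : Fin q → MvPolynomial (Fin (N + 1)) ℂ, (∀ i, (F i).IsHomogeneous (d i)) →
        eval (cf F) Φ ≠ 0 → ∀ (n : ℕ) (c : Crv M N n e),
          (∀ i ∈ Z, ∀ z, eval (fun j => c.f j z) (F i) = 0) →
          (∀ i ∉ Z, ∃ z, eval (fun j => c.f j z) (F i) ≠ 0) →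
            c.Bd (Tf c.f) (fun z => eval (fun j => c.f j z) (∏ i ∈ Finset.univ \ Z, F i)) C := by
  classical
  choose Φ hΦ C hC using fam_ub (N := N) d Z hZ M (e := e)
  refine ⟨∏ i ∈ Finset.range (M + 2), Φ i, Finset.prod_ne_zero_iff.2 fun i _ => hΦ i,
    ∑ i ∈ Finset.range (M + 2), 2 * |C i|, fun F hF hFΦ n c h1 h2 => ?_⟩
  have hn : n ∈ Finset.range (M + 2) := Finset.mem_range.2 (by have := c.n_le; omega)
  refine c.bd_of ?_ (hC n F hF ?_ c h1 h2)
  · exact Finset.single_le_sum (f := fun i => 2 * |C i|) (fun i _ => by positivity) hn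
  · intro h0
    apply hFΦ
    rw [map_prod]
    exact Finset.prod_eq_zero hn h0

end Pool.Agent.K9h33.SMT
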