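import Mathlib
import Pool.Agent.N131.SU.Rat
import Pool.Agent.N254.SQ.RatP
import Pool.Agent.K9h33.SMT.Conv

/-!
Entire curves whose characteristic function is at most a multiple of the logarithm for arbitrarily
large radii are rational, of bounded degree.
-/

set_option autoImplicit false

namespace Pool.Agent.K9h33.SMT

open Filter Metric Set Topology ValueDistribution
open Pool.Agent.N131.SR (Tf ratio_le diff_ne)

variable {N : ℕ} {f : Fin (N + 1) → ℂ → ℂ}

/-- cancellation of a polynomial -/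
theorem cancel {B : Polynomial ℂ} (hB : B ≠ 0) {u v : ℂ → ℂ} (hu : Continuous u)
    (hv : Continuous v) (h : ∀ z, u z * B.eval z = v z * B.eval z) (z : ℂ) : u z = v z := by
  have hd : Dense {z : ℂ | B.eval z ≠ 0} := by
    have h1 : {z : ℂ | B.eval z ≠ 0} = (↑B.roots.toFinset : Set ℂ)ᶜ := by
      ext z
      simp [hB]
    rw [h1]
    exact (Finset.countable_toSet _).dense_compl ℝ
  have h1 := Continuous.ext_on hd hu hv fun z hz => mul_right_cancel₀ hz (h z)
  exact congrFun h1 z

/-- the ratios of the coordinates -/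
theorem ratio_poly (hf : ∀ j, Differentiable ℂ (f j)) (h0 : ∀ z, ∃ j, f j z ≠ 0) {K : ℝ}
    (h : ∃ᶠ r in atTop, Tf f r ≤ K * Real.log r) (l : Fin (N + 1)) (hl : ∃ z, f l z ≠ 0)
    (i : Fin (N + 1)) : ∃ A B : Polynomial ℂ, B ≠ 0 ∧
      ∀ z, f i z * B.eval z = f l z * A.eval z := by
  classical
  by_cases hi : ∀ z, f i z = 0
  · exact ⟨0, 1, one_ne_zero, fun z => by rw [hi]; simp⟩
  push Not at hi
  obtain ⟨C, hC⟩ := ratio_le hf h0 i l hl
  have hm : Meromorphic fun z => f i z / f l z := fun z =>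
    ((hf i).analyticAt z).meromorphicAt.div ((hf l).analyticAt z).meromorphicAt
  obtain ⟨C', hC'⟩ := char_all hm (K := K) (C := C) (by
    refine (h.and_eventually (eventually_ge_atTop 1)).mono fun r hr => ?_
    have := hC r hr.2
    linarith [hr.1])
  have hcod : ∀ᶠ z in codiscrete ℂ, f i z ≠ 0 ∧ f l z ≠ 0 :=
    (diff_ne (hf i) hi).and (diff_ne (hf l) hl)
  have hord : ∀ u : ℂ, meromorphicOrderAt (fun z => f i z / f l z) u ≠ ⊤ := by
    intro u
    rw [meromorphicOrderAt_ne_top_iff_eventually_ne_zero (hm u)]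
    have h1 : ∀ᶠ z in 𝓝[≠] u, f i z ≠ 0 ∧ f l z ≠ 0 := by
      have h2 := mem_codiscrete.1 hcod u
      rw [disjoint_principal_right, compl_compl] at h2
      exact h2
    filter_upwards [h1] with z hz
    exact div_ne_zero hz.1 hz.2
  obtain ⟨T, D, c, hD⟩ := Pool.Agent.N254.SQ.RatP_rational hm hord hC'
  let B : Polynomial ℂ := ∏ u ∈ T, (Polynomial.X - Polynomial.C u) ^ (-D u).toNat
  let A : Polynomial ℂ := Polynomial.C c * ∏ u ∈ T, (Polynomial.X - Polynomial.C u) ^ (D u).toNat
  refine ⟨A, B, Finset.prod_ne_zero_iff.2 fun u _ => pow_ne_zero _ (Polynomial.X_sub_C_ne_zero u),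
    ?_⟩
  have h2 : ∀ᶠ z in codiscrete ℂ, f i z * B.eval z = f l z * A.eval z := by
    have h3 : ∀ᶠ z in codiscrete ℂ, z ∉ T := by
      have : (↑T : Set ℂ)ᶜ ∈ codiscrete ℂ := by
        rw [mem_codiscrete]
        intro x
        rw [compl_compl, disjoint_principal_right]
        have h4 : (((↑T : Set ℂ) \ {x})ᶜ : Set ℂ) ∈ 𝓝 x :=
          (T.finite_toSet.subset Set.sdiff_subset).isClosed.compl_mem_nhds fun h => h.2 rfl
        rw [mem_nhdsWithin_iff_exists_mem_nhds_inter]
        exact ⟨_, h4, fun z hz h5 => hz.1 ⟨h5, hz.2⟩⟩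
      exact this
    filter_upwards [hD, hcod, h3] with z h4 h5 h6
    have h7 : f i z = f l z * ((∏ u ∈ T, (z - u) ^ D u) * c) := by
      rw [← h4, mul_div_cancel₀ _ h5.2]
    have h8 : (∏ u ∈ T, (z - u) ^ D u) * B.eval z = ∏ u ∈ T, (z - u) ^ (D u).toNat := by
      simp only [B, Polynomial.eval_prod, Polynomial.eval_pow, Polynomial.eval_sub,
        Polynomial.eval_X, Polynomial.eval_C]
      rw [← Finset.prod_mul_distrib]
      refine Finset.prod_congr rfl fun u hu => ?_
      have h9 : z - u ≠ 0 := by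
        intro h10
        apply h6
        rw [sub_eq_zero.1 h10]
        exact hu
      rw [← zpow_natCast, ← zpow_natCast, ← zpow_add₀ h9]
      congr 1
      rcases le_total 0 (D u) with h11 | h11
      · rw [Int.toNat_of_nonneg h11, Int.toNat_of_nonpos (by omega)]
        simp
      · rw [Int.toNat_of_nonneg (by omega : 0 ≤ -D u), Int.toNat_of_nonpos h11]
        simp
    have h9 : A.eval z = c * ∏ u ∈ T, (z - u) ^ (D u).toNat := by
      simp only [A, Polynomial.eval_mul, Polynomial.eval_prod, Polynomial.eval_pow,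
        Polynomial.eval_sub, Polynomial.eval_X, Polynomial.eval_C]
    rw [h7, h9, ← h8]
    ring
  have hd : Differentiable ℂ fun z => f i z * B.eval z - f l z * A.eval z :=
    ((hf i).mul B.differentiable).sub ((hf l).mul A.differentiable)
  intro z
  by_contra hne
  obtain ⟨w, h3, h4⟩ := (h2.and (diff_ne hd ⟨z, sub_ne_zero.2 hne⟩)).exists
  exact h4 (sub_eq_zero.2 h3)

/-- **Rational curves.** -/
theorem rat_curve (hf : ∀ j, Differentiable ℂ (f j)) (h0 : ∀ z, ∃ j, f j z ≠ 0) {K : ℝ}
    (h : ∃ᶠ r in atTop, Tf f r ≤ K * Real.log r) : ∃ (p : Fin (N + 1) → Polynomial ℂ)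
      (u : ℂ → ℂ), Differentiable ℂ u ∧ (∀ z, u z ≠ 0) ∧ (∀ j z, f j z = u z * (p j).eval z) ∧
      (∀ z, ∃ j, (p j).eval z ≠ 0) ∧ ∀ j, ((p j).natDegree : ℝ) ≤ K := by
  classical
  obtain ⟨l, hl0⟩ := h0 0
  choose A B hB hAB using ratio_poly hf h0 h l ⟨0, hl0⟩
  -- a common denominator
  let B' : Polynomial ℂ := ∏ i, B i
  have hB' : B' ≠ 0 := Finset.prod_ne_zero_iff.2 fun i _ => hB i
  have ha : ∀ i, ∃ a : Polynomial ℂ, ∀ z, f i z * B'.eval z = f l z * a.eval z := by
    intro i
    obtain ⟨b, hb⟩ := Finset.dvd_prod_of_mem B (Finset.mem_univ i)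
    refine ⟨A i * b, fun z => ?_⟩
    have h1 : B'.eval z = (B i).eval z * b.eval z := by
      change (∏ i, B i).eval z = _
      rw [hb, Polynomial.eval_mul]
    rw [h1, ← mul_assoc, hAB, Polynomial.eval_mul]
    ring
  choose a ha using ha
  have hal : a l = B' := by
    apply Polynomial.funext
    intro z
    have h1 : Continuous fun z => (a l).eval z := (a l).continuous
    have h2 : Continuous fun z => B'.eval z := B'.continuous
    -- cancellation of `f l`
    have hcod := diff_ne (hf l) ⟨0, hl0⟩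
    by_contra hne
    have hd : Differentiable ℂ fun z => (a l).eval z - B'.eval z :=
      (a l).differentiable.sub B'.differentiable
    obtain ⟨w, h3, h4⟩ := (hcod.and (diff_ne hd ⟨z, sub_ne_zero.2 hne⟩)).exists
    apply h4
    rw [sub_eq_zero]
    exact (mul_left_cancel₀ h3 (ha l w)).symm
  -- the greatest common divisor
  obtain ⟨D, hD⟩ : ∃ D : Polynomial ℂ, Ideal.span (Set.range a) = Ideal.span {D} := by
    obtain ⟨D, hD⟩ := (IsPrincipalIdealRing.principal (Ideal.span (Set.range a))).principal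
    exact ⟨D, hD⟩
  have hbd : ∀ i, ∃ b, a i = D * b := by
    intro i
    have h1 : a i ∈ Ideal.span {D} := hD ▸ Ideal.subset_span ⟨i, rfl⟩
    exact Ideal.mem_span_singleton.1 h1
  choose b hb using hbd
  have hD0 : D ≠ 0 := by
    rintro rfl
    apply hB'
    rw [← hal, hb l, zero_mul]
  obtain ⟨c, hc⟩ : ∃ c : Fin (N + 1) → Polynomial ℂ, ∑ i, c i * a i = D := by
    have h1 : D ∈ Ideal.span (Set.range a) := hD ▸ Ideal.subset_span rfl
    obtain ⟨c, hc⟩ := (Ideal.mem_span_range_iff_exists_fun).1 h1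
    exact ⟨c, hc⟩
  have hcb : ∑ i, c i * b i = 1 := by
    apply mul_left_cancel₀ hD0
    rw [mul_one, Finset.mul_sum]
    conv_rhs => rw [← hc]
    refine Finset.sum_congr rfl fun i _ => ?_
    rw [hb i]
    ring
  let u : ℂ → ℂ := fun z => ∑ i, (c i).eval z * f i z
  have hu : Differentiable ℂ u := by
    apply Differentiable.fun_sum
    intro i _
    exact (c i).differentiable.mul (hf i)
  have hf' : ∀ j z, f j z = u z * (b j).eval z := by
    intro j
    apply cancel hB' (hf j).continuous (hu.continuous.mul (b j).continuous)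
    intro z
    change f j z * B'.eval z = u z * (b j).eval z * B'.eval z
    have h1 : u z * B'.eval z = f l z * D.eval z := by
      simp only [u]
      rw [Finset.sum_mul, ← hc, Polynomial.eval_finsetSum, Finset.mul_sum]
      refine Finset.sum_congr rfl fun i _ => ?_
      rw [mul_assoc, ha, Polynomial.eval_mul]
      ring
    calc f j z * B'.eval z = f l z * (D.eval z * (b j).eval z) := by
          rw [ha, hb j, Polynomial.eval_mul]
      _ = u z * B'.eval z * (b j).eval z := by rw [h1]; ring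
      _ = _ := by ring
  have hu0 : ∀ z, u z ≠ 0 := by
    intro z hz
    obtain ⟨j, hj⟩ := h0 z
    apply hj
    rw [hf', hz, zero_mul]
  have hb0 : ∀ z, ∃ j, (b j).eval z ≠ 0 := by
    intro z
    obtain ⟨j, hj⟩ := h0 z
    refine ⟨j, fun h1 => hj ?_⟩
    rw [hf', h1, mul_zero]
  refine ⟨b, u, hu, hu0, hf', hb0, fun j => ?_⟩
  -- the degree
  obtain ⟨R, c', hR, hc'⟩ := Pool.Agent.N131.SU.Tf_poly hb0 j
  have hT : ∀ r, 1 ≤ r → Tf f r = Real.log ‖u 0‖ + Tf (fun j z => (b j).eval z) r := by
    intro r hr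
    have hr0 : 0 < r := by linarith
    have h1 : (fun z => Real.log ‖fun j => f j z‖) = fun z => Real.log ‖u z‖ +
        Real.log ‖fun j => (b j).eval z‖ := by
      funext z
      have h2 : (fun j => f j z) = u z • fun j => (b j).eval z := by
        funext j
        rw [hf']
        rfl
      have h3 : ‖fun j => (b j).eval z‖ ≠ 0 := by
        rw [norm_ne_zero_iff]
        obtain ⟨j, hj⟩ := hb0 z
        exact fun h4 => hj (congrFun h4 j)
      rw [h2, norm_smul, Real.log_mul (norm_ne_zero_iff.2 (hu0 z)) h3]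
    unfold Pool.Agent.N131.SR.Tf
    rw [h1]
    have hcont : Continuous fun z => Real.log ‖u z‖ :=
      Continuous.log hu.continuous.norm fun z => norm_ne_zero_iff.2 (hu0 z)
    have hi : CircleIntegrable (fun z => Real.log ‖u z‖) 0 r := 
      hcont.continuousOn.circleIntegrable hr0.le
    rw [Real.circleAverage_fun_add hi (Pool.Agent.N131.SR.curve_int
      (f := fun j z => (b j).eval z) (fun j => (b j).differentiable) hb0 r)]
    congr 1
    have h4 := AnalyticOnNhd.circleAverage_log_norm_of_ne_zero (g := u) (c := 0) (R := r)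
      (fun z _ => hu.analyticAt z) (fun z _ => hu0 z)
    exact h4
  by_contra hcon
  push Not at hcon
  set δ : ℝ := (b j).natDegree - K with hδ
  have hδ0 : 0 < δ := by
    rw [hδ]
    linarith
  obtain ⟨r, hr1, hr2, hr3, hr4⟩ := (h.and_eventually ((eventually_ge_atTop R).and
    ((eventually_ge_atTop 1).and (Real.tendsto_log_atTop.eventually_gt_atTop
      ((c' - Real.log ‖u 0‖) / δ))))).exists
  have h1 := hc' r hr2
  rw [hT r hr3] at hr1
  rw [div_lt_iff₀ hδ0] at hr4
  have h2 : Real.log r * δ = (b j).natDegree * Real.log r - K * Real.log r := by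
    rw [hδ]
    ring
  linarith

end Pool.Agent.K9h33.SMT
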