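import Mathlib
import Pool.Agent.K9h33.SMT.Main
import Pool.Agent.K9h33.SMT.Rat

/-!
The uniform inequalities for general hypersurfaces without the logarithm of the radius.
-/

set_option autoImplicit false

namespace Pool.Agent.K9h33.SMT

open MeasureTheory Set Filter Topology MvPolynomial
open Pool.Agent.N131.SU
open Pool.Agent.N131.SR (Wr Wr_diff Tf diff_ne form_diff img_diff Nb Nb_nonneg Nb_eq zeros_finite)
open Pool.Agent.V1153.UG
open Pool.Agent.V1153.GH
open Pool.Agent.TH182.VD (CI)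

variable {N M n e q : ℕ}

/-- polynomials without zeros except the origin -/
theorem mono_of_roots {p : Polynomial ℂ} (hp : p ≠ 0) (h : ∀ z, z ≠ 0 → p.eval z ≠ 0) :
    ∃ (c : ℂ) (k : ℕ), c ≠ 0 ∧ p = Polynomial.C c * Polynomial.X ^ k := by
  have h1 : p.roots = Multiset.replicate (Multiset.card p.roots) 0 := by
    rw [Multiset.eq_replicate]
    refine ⟨rfl, fun b hb => ?_⟩
    by_contra hb0
    exact h b hb0 ((Polynomial.mem_roots hp).1 hb)
  refine ⟨p.leadingCoeff, Multiset.card p.roots, Polynomial.leadingCoeff_ne_zero.2 hp, ?_⟩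
  have h2 := (IsAlgClosed.splits p).eq_prod_roots
  conv_lhs => rw [h2]
  rw [h1]
  simp

/-- a lower bound for the counting function -/
theorem Nb_lower {h : ℂ → ℂ} (hd : Differentiable ℂ h) (hne : ∃ z, h z ≠ 0) {z0 : ℂ}
    (h0 : h z0 = 0) (hz0 : z0 ≠ 0) {r : ℝ} (hr1 : 1 ≤ r) (hr : ‖z0‖ ≤ r) :
    Real.log r - Real.log ‖z0‖ ≤ Nb h r := by
  classical
  have hfin := zeros_finite hd hne r
  have hF : ∀ z, z ∈ hfin.toFinset ↔ h z = 0 ∧ ‖z‖ ≤ r := fun z => by
    rw [Set.Finite.mem_toFinset]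
    rfl
  rw [Nb_eq r hfin.toFinset hF]
  have h1 : ∀ z ∈ hfin.toFinset, 0 ≤ Real.log (r * ‖z‖⁻¹) := by
    intro z hz
    by_cases hz0 : z = 0
    · rw [hz0]
      simp
    · apply Real.log_nonneg
      rw [← div_eq_mul_inv, le_div_iff₀ (norm_pos_iff.2 hz0), one_mul]
      exact ((hF z).1 hz).2
  have h2 := Finset.single_le_sum h1 ((hF z0).2 ⟨h0, hr⟩)
  have h3 : Real.log (r * ‖z0‖⁻¹) = Real.log r - Real.log ‖z0‖ := by
    rw [Real.log_mul (by linarith) (inv_ne_zero (norm_ne_zero_iff.2 hz0)), Real.log_inv]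
    ring
  have h4 : 0 ≤ {z : ℂ | h z = 0}.indicator (1 : ℂ → ℝ) 0 * Real.log r :=
    mul_nonneg (Set.indicator_nonneg (fun _ _ => zero_le_one) _) (Real.log_nonneg hr1)
  linarith

/-- nonconstant curves -/
def NC (c : Crv M N n e) : Prop := ∃ z w j k, c.f j z * c.f k w ≠ c.f k z * c.f j w

/-- **Removal of the logarithm.** -/
theorem drop_log {d : Fin q → ℕ} {Z : Finset (Fin q)} {F : Fin q → MvPolynomial (Fin (N + 1)) ℂ}
    (hF : ∀ i, (F i).IsHomogeneous (d i)) {c : Crv M N n e}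
    (hZ : ∀ i ∈ Z, ∀ z, eval (fun j => c.f j z) (F i) = 0)
    (hO : ∀ i ∉ Z, ∃ z, eval (fun j => c.f j z) (F i) ≠ 0) (hc : NC c) {C : ℝ} (hC : 0 ≤ C)
    (hgen : ∀ P, ¬ GmBdd (Ideal.span {G | ∃ i ∈ Z, G = F i}) (∏ i ∈ Finset.univ \ Z, F i)
      ⌊2 * C⌋₊ P) {X : ℝ → ℝ}
    (hX : ∀ r, 1 ≤ r → Nb (fun z => eval (fun j => c.f j z) (∏ i ∈ Finset.univ \ Z, F i)) r ≤ X r)
    {E : Set ℝ} (hE : volume E < ⊤) (hb : ∀ r, 1 ≤ r → r ∉ E → Tf c.f r ≤ C * (X r + Real.log r)) :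
    ∃ E' : Set ℝ, volume E' < ⊤ ∧ ∀ r, 1 ≤ r → r ∉ E' → Tf c.f r ≤ 3 * C * X r := by
  classical
  set Q := ∏ i ∈ Finset.univ \ Z, F i with hQ
  have hX0 : ∀ r, 1 ≤ r → 0 ≤ X r := fun r hr => (Nb_nonneg hr).trans (hX r hr)
  by_cases h : ∃ᶠ r in atTop, Tf c.f r ≤ 2 * C * Real.log r
  · obtain ⟨p, u, hu, hu0, hf, hp0, hdeg⟩ := rat_curve (fun j => img_diff (P := c.P) c.D.hG j)
      c.D.h0 h
    have hf' : ∀ j z, c.f j z = u z * (p j).eval z := hf
    have hev : ∀ (G : MvPolynomial (Fin (N + 1)) ℂ) (m : ℕ), G.IsHomogeneous m → ∀ z,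
        eval (fun j => c.f j z) G = u z ^ m * (aeval p G : Polynomial ℂ).eval z := by
      intro G m hG z
      have h1 : (fun j => c.f j z) = fun j => u z * (p j).eval z := funext fun j => hf' j z
      rw [h1, Pool.Agent.N131.SR.eval_poly, ← eval_homog hG]
    have hQh : Q.IsHomogeneous (∑ i ∈ Finset.univ \ Z, d i) :=
      IsHomogeneous.prod _ _ _ fun i _ => hF i
    obtain ⟨zq, hzq⟩ := prod_ne (c := c) (s := Finset.univ \ Z) (F := F)
      fun i hi => hO i (Finset.mem_sdiff.1 hi).2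
    rw [← hQ] at hzq
    have hQp : (aeval p Q : Polynomial ℂ) ≠ 0 := by
      intro h0
      apply hzq
      rw [hev Q _ hQh, h0, Polynomial.eval_zero, mul_zero]
    have hroot : ∃ z0, z0 ≠ 0 ∧ (aeval p Q : Polynomial ℂ).eval z0 = 0 := by
      by_contra hno
      push Not at hno
      obtain ⟨a, k, ha, hak⟩ := mono_of_roots hQp hno
      refine hgen p ⟨fun j => Nat.le_floor (hdeg j), fun G hG _ => ?_, ⟨a, k, ha, hak⟩, ?_⟩
      · have h4 : Ideal.span {G | ∃ i ∈ Z, G = F i} ≤ RingHom.ker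
            (aeval p : MvPolynomial (Fin (N + 1)) ℂ →ₐ[ℂ] Polynomial ℂ).toRingHom := by
          rw [Ideal.span_le]
          rintro _ ⟨l, hl, rfl⟩
          change aeval p (F l) = 0
          apply Polynomial.funext
          intro z
          have h5 := hev (F l) _ (hF l) z
          rw [hZ l hl z] at h5
          rw [Polynomial.eval_zero]
          exact (mul_eq_zero.1 h5.symm).resolve_left (pow_ne_zero _ (hu0 z))
        exact h4 hG
      · obtain ⟨z, w, j, k, hzw⟩ := hc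
        refine ⟨z, w, j, k, fun h5 => hzw ?_⟩
        rw [hf', hf', hf', hf']
        calc u z * (p j).eval z * (u w * (p k).eval w) =
            u z * u w * ((p j).eval z * (p k).eval w) := by ring
          _ = u z * u w * ((p k).eval z * (p j).eval w) := by rw [h5]
          _ = _ := by ring
    obtain ⟨z0, hz0, hz0r⟩ := hroot
    refine ⟨E ∪ Set.Icc 1 (max ‖z0‖ (‖z0‖ ^ 2)), fin_union hE _, fun r hr hrE => ?_⟩
    have h1 : max ‖z0‖ (‖z0‖ ^ 2) < r := by
      by_contra hcon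
      push Not at hcon
      exact hrE (Or.inr ⟨hr, hcon⟩)
    have h2 : ‖z0‖ < r := (le_max_left _ _).trans_lt h1
    have h3 : ‖z0‖ ^ 2 < r := (le_max_right _ _).trans_lt h1
    have h4 := hb r hr fun h => hrE (Or.inl h)
    have hd : Differentiable ℂ fun z => eval (fun j => c.f j z) Q :=
      form_diff (img_diff (P := c.P) c.D.hG) Q
    have h5 := Nb_lower hd ⟨zq, hzq⟩ (z0 := z0) (by rw [hev Q _ hQh, hz0r, mul_zero]) hz0 hr h2.le
    have h6 : 2 * Real.log ‖z0‖ ≤ Real.log r := by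
      have h7 := Real.log_le_log (pow_pos (norm_pos_iff.2 hz0) 2) h3.le
      rw [Real.log_pow] at h7
      exact_mod_cast h7
    have h7 : Real.log r ≤ 2 * X r := by
      have := hX r hr
      linarith
    calc Tf c.f r ≤ C * (X r + Real.log r) := h4
      _ ≤ C * (X r + 2 * X r) := mul_le_mul_of_nonneg_left (by linarith) hC
      _ = 3 * C * X r := by ring
  · rw [not_frequently] at h
    obtain ⟨R, hR⟩ := eventually_atTop.1 h
    refine ⟨E ∪ Set.Icc 1 R, fin_union hE _, fun r hr hrE => ?_⟩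
    have h1 : R < r := by
      by_contra hcon
      push Not at hcon
      exact hrE (Or.inr ⟨hr, hcon⟩)
    have h2 := hb r hr fun h => hrE (Or.inl h)
    have h3 := hR r h1.le
    push Not at h3
    have h4 : 0 ≤ C * X r := mul_nonneg hC (hX0 r hr)
    nlinarith

/-- **Uniform inequalities for general hypersurfaces.** -/
theorem fam_drop (d : Fin q → ℕ) (Z : Finset (Fin q)) (hZ : 2 * N + 1 ≤ ∑ i, d i + Z.card)
    (M e : ℕ) : ∃ Φ : MvPolynomial (CI N d) ℂ, Φ ≠ 0 ∧ ∃ C : ℝ,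
      ∀ F : Fin q → MvPolynomial (Fin (N + 1)) ℂ, (∀ i, (F i).IsHomogeneous (d i)) →
        eval (cf F) Φ ≠ 0 → ∀ (n : ℕ) (c : Crv M N n e),
          (∀ i ∈ Z, ∀ z, eval (fun j => c.f j z) (F i) = 0) →
          (∀ i ∉ Z, ∃ z, eval (fun j => c.f j z) (F i) ≠ 0) → NC c →
            ∃ E : Set ℝ, volume E < ⊤ ∧ ∀ r, 1 ≤ r → r ∉ E → Tf c.f r ≤ C * (Nb (Wr c.g) r +
              Nb (fun z => eval (fun j => c.f j z) (∏ i ∈ Finset.univ \ Z, F i)) r +
                Real.posLog (Tf c.G r / Tf c.f r)) := by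
  classical
  obtain ⟨Φ, hΦ, C, hC⟩ := fam_bd (N := N) d Z hZ M e
  obtain ⟨C', hC'0, hC'⟩ := absorb |C|
  obtain ⟨Φ', hΦ', hgen⟩ := general (n := N) d Z hZ ⌊2 * C'⌋₊
  refine ⟨Φ * Φ', mul_ne_zero hΦ hΦ', 3 * C', fun F hF hFΦ n c h1 h2 h3 => ?_⟩
  rw [map_mul] at hFΦ
  obtain ⟨E, hE, hb⟩ := hC F hF (left_ne_zero_of_mul hFΦ) n c h1 h2
  have hg := hgen F hF (right_ne_zero_of_mul hFΦ)
  refine drop_log hF h1 h2 h3 hC'0 hg (X := fun r => Nb (Wr c.g) r +
    Nb (fun z => eval (fun j => c.f j z) (∏ i ∈ Finset.univ \ Z, F i)) r +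
      Real.posLog (Tf c.G r / Tf c.f r)) (fun r hr => ?_)
    (E := E ∪ Set.Icc 1 2) (fin_union hE 2) fun r hr hrE => ?_
  · have e1 := Nb_nonneg (h := Wr c.g) hr
    have e2 : 0 ≤ Real.posLog (Tf c.G r / Tf c.f r) := Real.posLog_nonneg
    linarith
  · have e0 : 2 ≤ r := by
      by_contra hcon
      push Not at hcon
      exact hrE (Or.inr ⟨hr, hcon.le⟩)
    have e1 := hb r hr fun h => hrE (Or.inl h)
    have e2 := Nb_nonneg (h := Wr c.g) hr
    have e3 := Nb_nonneg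
      (h := fun z => eval (fun j => c.f j z) (∏ i ∈ Finset.univ \ Z, F i)) hr
    have e4 : 0 ≤ Real.posLog (Tf c.G r / Tf c.f r) := Real.posLog_nonneg
    have e5 := Real.log_nonneg hr
    rcases le_or_gt (Tf c.f r) 0 with h4 | h4
    · refine h4.trans (mul_nonneg hC'0 ?_)
      linarith
    · refine hC' _ _ r (add_nonneg (add_nonneg e2 e3) e4) e0 ?_
      have e6 : Real.posLog (Tf c.G r) ≤ Real.posLog (Tf c.G r / Tf c.f r) +
          Real.posLog (Tf c.f r) := by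
        have e7 := Real.posLog_mul (x := Tf c.G r / Tf c.f r) (y := Tf c.f r)
        rwa [div_mul_cancel₀ _ h4.ne'] at e7
      have e8 := c.Y_nonneg (fun z => eval (fun j => c.f j z) (∏ i ∈ Finset.univ \ Z, F i)) hr
      calc Tf c.f r ≤ C * c.Y _ r := e1
        _ ≤ |C| * c.Y _ r := mul_le_mul_of_nonneg_right (le_abs_self C) e8
        _ ≤ _ := by
          apply mul_le_mul_of_nonneg_left _ (abs_nonneg C)
          unfold Crv.Y
          linarith

end Pool.Agent.K9h33.SMT
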